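import Pool.Agent.Lead.IP.Defs

/-! The value at `0` of the symplectic characters `Dt m / Dl m`, and the closed form. -/

namespace IP
open Finset Filter Topology

namespace SpV

/-- sine version of the type C Vandermonde determinant -/
theorem det_sin {n : ℕ} (θ : Fin n → ℝ) :
    (Matrix.of fun i j : Fin n => Real.sin (((j : ℕ) + 1 : ℕ) * θ i)).det
      = (∏ i, Real.sin (θ i)) *
        ∏ i : Fin n, ∏ j ∈ Finset.Ioi i, (2 * Real.cos (θ j) - 2 * Real.cos (θ i)) := by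
  have hS : ∀ (x : ℝ) (k : ℕ), Real.sin ((k + 1 : ℕ) * x) =
      Real.sin x * (Polynomial.Chebyshev.S ℝ ((k : ℕ) : ℤ)).eval (2 * Real.cos x) := by
    intro x k
    induction k using Nat.strong_induction_on with
    | _ k ih =>
      match k with
      | 0 => simp
      | 1 =>
        simp only [Nat.cast_one, Polynomial.Chebyshev.S_one, Polynomial.eval_X]
        rw [show ((1 + 1 : ℕ) : ℝ) = 2 by norm_num, Real.sin_two_mul]
        ring
      | (m + 2) =>
        have h1 := ih (m + 1) (by omega)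
        have h0 := ih m (by omega)
        have e : Polynomial.Chebyshev.S ℝ ((m + 2 : ℕ) : ℤ)
            = Polynomial.X * Polynomial.Chebyshev.S ℝ ((m + 1 : ℕ) : ℤ)
              - Polynomial.Chebyshev.S ℝ ((m : ℕ) : ℤ) := by
          have := Polynomial.Chebyshev.S_add_two ℝ (m : ℤ)
          push_cast
          exact this
        rw [e, Polynomial.eval_sub, Polynomial.eval_mul, Polynomial.eval_X, mul_sub,
          mul_left_comm, ← h1, ← h0]
        have a1 : ((m + 2 + 1 : ℕ) : ℝ) * x = ((m + 1 + 1 : ℕ) : ℝ) * x + x := by push_cast; ring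
        have a2 : ((m + 1 : ℕ) : ℝ) * x = ((m + 1 + 1 : ℕ) : ℝ) * x - x := by push_cast; ring
        rw [a1, a2, Real.sin_add, Real.sin_sub]
        ring
  have hmon : ∀ k : ℕ, (Polynomial.Chebyshev.S ℝ k).natDegree = k ∧
      (Polynomial.Chebyshev.S ℝ k).Monic := by
    intro k
    induction k using Nat.strong_induction_on with
    | _ k ih =>
      match k with
      | 0 => simp
      | 1 => simp
      | (m + 2) =>
        obtain ⟨h1, h1m⟩ := ih (m + 1) (by omega)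
        obtain ⟨h0, h0m⟩ := ih m (by omega)
        have e : Polynomial.Chebyshev.S ℝ ((m + 2 : ℕ) : ℤ)
            = Polynomial.X * Polynomial.Chebyshev.S ℝ ((m + 1 : ℕ) : ℤ)
              - Polynomial.Chebyshev.S ℝ ((m : ℕ) : ℤ) := by
          have := Polynomial.Chebyshev.S_add_two ℝ (m : ℤ)
          push_cast
          exact this
        have hX : (Polynomial.X * Polynomial.Chebyshev.S ℝ ((m + 1 : ℕ) : ℤ)).Monic :=
          Polynomial.monic_X.mul h1m
        have hXd : (Polynomial.X * Polynomial.Chebyshev.S ℝ ((m + 1 : ℕ) : ℤ)).natDegree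
            = m + 2 := by
          rw [Polynomial.monic_X.natDegree_mul h1m, h1, Polynomial.natDegree_X]; ring
        have hlt : (Polynomial.Chebyshev.S ℝ ((m : ℕ) : ℤ)).degree
            < (Polynomial.X * Polynomial.Chebyshev.S ℝ ((m + 1 : ℕ) : ℤ)).degree := by
          rw [Polynomial.degree_eq_natDegree hX.ne_zero,
            Polynomial.degree_eq_natDegree h0m.ne_zero, hXd, h0]
          exact_mod_cast (by omega : m < m + 2)
        rw [e]
        refine ⟨?_, ?_⟩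
        · rw [Polynomial.natDegree_sub_eq_left_of_natDegree_lt, hXd]
          rw [hXd, h0]; omega
        · exact hX.sub_of_left hlt
  have h1 : (Matrix.of fun i j : Fin n => Real.sin (((j : ℕ) + 1 : ℕ) * θ i))
      = Matrix.of fun i j : Fin n => Real.sin (θ i) *
        (Matrix.of fun i j : Fin n =>
          (Polynomial.Chebyshev.S ℝ ((j : ℕ) : ℤ)).eval (2 * Real.cos (θ i))) i j := by
    ext i j
    simp only [Matrix.of_apply]
    exact hS (θ i) j
  rw [h1, Matrix.det_mul_column]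
  congr 1
  rw [← Matrix.det_eval_matrixOfPolynomials_eq_det_vandermonde (fun i => 2 * Real.cos (θ i))
    (fun j : Fin n => Polynomial.Chebyshev.S ℝ ((j : ℕ) : ℤ)) (fun j => (hmon j).1)
    (fun j => (hmon j).2), Matrix.det_vandermonde]

/-- products over `Fin` pairs as products over ranges -/
theorem prod_pairs (n : ℕ) (f : ℕ → ℕ → ℝ) :
    ∏ i : Fin n, ∏ j ∈ Finset.Ioi i, f j i = ∏ j ∈ range n, ∏ i ∈ range j, f j i := by
  have h1 : ∏ i : Fin n, ∏ j ∈ Finset.Ioi i, f j i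
      = ∏ i : Fin n, ∏ j : Fin n, if i < j then f j i else 1 := by
    refine Finset.prod_congr rfl fun i _ => ?_
    rw [← Finset.prod_filter]
    refine Finset.prod_congr ?_ fun _ _ => rfl
    ext j
    simp
  rw [h1, Finset.prod_comm, ← Fin.prod_univ_eq_prod_range (fun j => ∏ i ∈ range j, f j i) n]
  refine Finset.prod_congr rfl fun j _ => ?_
  have h2 : ∏ i : Fin n, (if i < j then f j i else 1)
      = ∏ i ∈ range n, (if i < (j : ℕ) then f j i else 1) := by
    rw [← Fin.prod_univ_eq_prod_range (fun i => if i < (j : ℕ) then f j i else 1) n]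
    rfl
  rw [h2, ← Finset.prod_filter]
  refine Finset.prod_congr ?_ fun _ _ => rfl
  ext i
  simp only [Finset.mem_filter, Finset.mem_range]
  have := j.2
  omega

/-- general sine determinant at the points `t, 2t, 3t, ...` -/
theorem det_at (m : ℕ) (l : ℕ → ℕ) (t : ℝ) :
    Matrix.det (Matrix.of fun i j : Fin m =>
        Real.sin (2 * (l j : ℝ) * (t * (((i : ℕ) : ℝ) + 1)))) =
      (∏ j ∈ range m, Real.sin (2 * l j * t)) *
        ∏ j ∈ range m, ∏ i ∈ range j, (2 * Real.cos (2 * l j * t) - 2 * Real.cos (2 * l i * t)) := by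
  rw [← Matrix.det_transpose]
  have h := det_sin (fun j : Fin m => 2 * (l j : ℝ) * t)
  have e : (Matrix.of fun i j : Fin m =>
        Real.sin (2 * (l j : ℝ) * (t * (((i : ℕ) : ℝ) + 1)))).transpose
      = (Matrix.of fun i j : Fin m => Real.sin (((j : ℕ) + 1 : ℕ) * (2 * (l i : ℝ) * t))) := by
    ext i j
    simp only [Matrix.transpose_apply, Matrix.of_apply]
    congr 1
    push_cast
    ring
  rw [e, h, prod_pairs m (fun j i => 2 * Real.cos (2 * l j * t) - 2 * Real.cos (2 * l i * t)),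
    Fin.prod_univ_eq_prod_range (fun j => Real.sin (2 * (l j : ℝ) * t)) m]

theorem Dt_at (m : ℕ) (t : ℝ) : Dt m (fun i => t * ((i : ℝ) + 1)) =
      (∏ j ∈ range m, Real.sin (2 * mu j * t)) *
        ∏ j ∈ range m, ∏ i ∈ range j,
          (2 * Real.cos (2 * mu j * t) - 2 * Real.cos (2 * mu i * t)) :=
  det_at m mu t

theorem Dl_at (m : ℕ) (t : ℝ) : Dl m (fun i => t * ((i : ℝ) + 1)) =
      (∏ j ∈ range m, Real.sin (2 * (j + 1 : ℕ) * t)) *
        ∏ j ∈ range m, ∏ i ∈ range j,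
          (2 * Real.cos (2 * (j + 1 : ℕ) * t) - 2 * Real.cos (2 * (i + 1 : ℕ) * t)) :=
  det_at m (fun j => j + 1) t

/-! ### the limit `t → 0` -/

theorem tendsto_sin_div (a : ℝ) :
    Tendsto (fun t : ℝ => Real.sin (a * t) / t) (𝓝[≠] 0) (𝓝 a) := by
  have h : HasDerivAt (fun t : ℝ => Real.sin (a * t)) a 0 := by
    have h1 : HasDerivAt (fun t : ℝ => a * t) a 0 := by
      simpa using (hasDerivAt_id (0 : ℝ)).const_mul a
    have h2 := h1.sin
    simpa using h2
  have h3 := hasDerivAt_iff_tendsto_slope.1 h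
  refine h3.congr' ?_
  filter_upwards [self_mem_nhdsWithin] with t ht
  rw [slope_def_field]
  simp

/-- product of sines and differences of cosines -/
noncomputable def G (l : ℕ → ℕ) (m : ℕ) (t : ℝ) : ℝ :=
  (∏ j ∈ range m, Real.sin (2 * l j * t)) *
    ∏ j ∈ range m, ∏ i ∈ range j, (2 * Real.cos (2 * l j * t) - 2 * Real.cos (2 * l i * t))

/-- leading coefficient of `G` -/
noncomputable def g (l : ℕ → ℕ) (m : ℕ) : ℝ :=
  (∏ j ∈ range m, (2 * l j : ℝ)) *
    ∏ j ∈ range m, ∏ i ∈ range j, (-4 * ((l j : ℝ) ^ 2 - (l i : ℝ) ^ 2))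

theorem tendsto_G (l : ℕ → ℕ) (m : ℕ) :
    Tendsto (fun t => G l m t / (t ^ m * (t ^ 2) ^ (∑ j ∈ range m, j))) (𝓝[≠] 0) (𝓝 (g l m)) := by
  have h1 := tendsto_finsetProd (range m)
    (fun j _ => tendsto_sin_div (2 * (l j : ℝ)))
  have h2 : ∀ a b : ℕ, Tendsto (fun t : ℝ => (2 * Real.cos (2 * a * t) - 2 * Real.cos (2 * b * t))
      / t ^ 2) (𝓝[≠] 0) (𝓝 (-4 * ((a : ℝ) ^ 2 - (b : ℝ) ^ 2))) := by
    intro a b
    have h3 := ((tendsto_sin_div ((a : ℝ) + b)).mul (tendsto_sin_div ((a : ℝ) - b))).const_mul (-4)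
    have e : -4 * (((a : ℝ) + b) * ((a : ℝ) - b)) = -4 * ((a : ℝ) ^ 2 - (b : ℝ) ^ 2) := by ring
    rw [e] at h3
    refine h3.congr' ?_
    filter_upwards [self_mem_nhdsWithin] with t ht
    have ht : t ≠ 0 := ht
    have hc : 2 * Real.cos (2 * a * t) - 2 * Real.cos (2 * b * t)
        = -4 * (Real.sin (((a : ℝ) + b) * t) * Real.sin (((a : ℝ) - b) * t)) := by
      rw [← mul_sub, Real.cos_sub_cos]
      rw [show (2 * (a : ℝ) * t + 2 * b * t) / 2 = ((a : ℝ) + b) * t by ring,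
        show (2 * (a : ℝ) * t - 2 * b * t) / 2 = ((a : ℝ) - b) * t by ring]
      ring
    rw [hc]
    field_simp
  have h3 := tendsto_finsetProd (range m)
    (fun j _ => tendsto_finsetProd (range j) (fun i _ => h2 (l j) (l i)))
  refine (h1.mul h3).congr ?_
  intro t
  rw [Finset.prod_div_distrib, Finset.prod_const, card_range]
  have h4 : ∏ j ∈ range m, ∏ i ∈ range j,
      ((2 * Real.cos (2 * l j * t) - 2 * Real.cos (2 * l i * t)) / t ^ 2)
      = (∏ j ∈ range m, ∏ i ∈ range j, (2 * Real.cos (2 * l j * t) - 2 * Real.cos (2 * l i * t)))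
        / (t ^ 2) ^ (∑ j ∈ range m, j) := by
    rw [← Finset.prod_pow_eq_pow_sum, ← Finset.prod_div_distrib]
    refine Finset.prod_congr rfl fun j _ => ?_
    rw [Finset.prod_div_distrib, Finset.prod_const, card_range]
  rw [h4, div_mul_div_comm]
  rfl

theorem g_ne_zero {l : ℕ → ℕ} (hl : StrictMono l) (h0 : 0 < l 0) (m : ℕ) : g l m ≠ 0 := by
  unfold g
  refine mul_ne_zero (Finset.prod_ne_zero_iff.2 fun j _ => ?_)
    (Finset.prod_ne_zero_iff.2 fun j _ => Finset.prod_ne_zero_iff.2 fun i hi => ?_)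
  · have : 0 < l j := lt_of_lt_of_le h0 (hl.monotone (Nat.zero_le j))
    positivity
  · have h1 : l i < l j := hl (mem_range.1 hi)
    have h2 : (l i : ℝ) < l j := by exact_mod_cast h1
    have h3 : (0 : ℝ) ≤ l i := Nat.cast_nonneg _
    have : 0 < (l j : ℝ) ^ 2 - (l i : ℝ) ^ 2 := by nlinarith
    exact mul_ne_zero (by norm_num) this.ne'

theorem G_ne_zero {l : ℕ → ℕ} (hl : StrictMono l) (h0 : 0 < l 0) (m : ℕ) :
    ∀ᶠ t in 𝓝[≠] (0 : ℝ), G l m t ≠ 0 := by
  have h := (tendsto_G l m).eventually_ne (g_ne_zero hl h0 m)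
  filter_upwards [h] with t ht h1
  rw [h1, zero_div] at ht
  exact ht rfl

theorem tendsto_ratio (l k : ℕ → ℕ) (hk : StrictMono k) (h0 : 0 < k 0) (m : ℕ) :
    Tendsto (fun t => G l m t / G k m t) (𝓝[≠] 0) (𝓝 (g l m / g k m)) := by
  have h := (tendsto_G l m).div (tendsto_G k m) (g_ne_zero hk h0 m)
  refine h.congr' ?_
  filter_upwards [self_mem_nhdsWithin] with t ht
  have ht : t ≠ 0 := ht
  exact div_div_div_cancel_right₀ (by positivity) _ _

/-- `X m` is the value at `0` of `Dt m / Dl m` -/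
noncomputable def X (m : ℕ) : ℝ := g mu m / g (fun j => j + 1) m

theorem mu_strictMono : StrictMono mu := by
  refine strictMono_nat_of_lt_succ fun n => ?_
  unfold mu
  omega

theorem Dl_ne_zero (m : ℕ) :
    ∀ᶠ t in 𝓝[≠] (0 : ℝ), Dl m (fun i => t * ((i : ℝ) + 1)) ≠ 0 := by
  have h := G_ne_zero (l := fun j => j + 1) (strictMono_nat_of_lt_succ fun n => by omega)
    (by norm_num) m
  filter_upwards [h] with t ht
  rw [Dl_at]
  exact ht

theorem Dt_ne_zero (m : ℕ) :
    ∀ᶠ t in 𝓝[≠] (0 : ℝ), Dt m (fun i => t * ((i : ℝ) + 1)) ≠ 0 := by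
  have h := G_ne_zero mu_strictMono (by unfold mu; norm_num) m
  filter_upwards [h] with t ht
  rw [Dt_at]
  exact ht

/-- the value of the character at `0` along the curve `(t, 2t, 3t, ...)` -/
theorem tendsto_chi (m : ℕ) :
    Tendsto (fun t : ℝ => Dt m (fun i => t * ((i : ℝ) + 1)) / Dl m (fun i => t * ((i : ℝ) + 1)))
      (𝓝[≠] 0) (𝓝 (X m)) := by
  have h := tendsto_ratio mu (fun j => j + 1) (strictMono_nat_of_lt_succ fun n => by omega)
    (by norm_num) m
  refine h.congr fun t => ?_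
  rw [Dt_at, Dl_at]
  rfl

/-! ### closed form -/

theorem g_succ (l : ℕ → ℕ) (m : ℕ) : g l (m + 1) = g l m *
    (2 * (-4) ^ m * (l m * ∏ i ∈ range m, ((l m : ℝ) ^ 2 - (l i : ℝ) ^ 2))) := by
  have h : ∏ i ∈ range m, (-4 * ((l m : ℝ) ^ 2 - (l i : ℝ) ^ 2))
      = (-4) ^ m * ∏ i ∈ range m, ((l m : ℝ) ^ 2 - (l i : ℝ) ^ 2) := by
    rw [Finset.prod_mul_distrib, Finset.prod_const, card_range]
  unfold g
  rw [prod_range_succ, prod_range_succ (fun j => ∏ i ∈ range j, (-4 * ((l j : ℝ) ^ 2 - (l i : ℝ) ^ 2))),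
    h]
  ring

/-- products over the first `2n` exponents -/
theorem prod_mu (f : ℝ → ℝ) (n : ℕ) : ∏ i ∈ range (2 * n), f (mu i)
    = ∏ k ∈ range n, (f (3 * k + 1) * f (3 * k + 2)) := by
  induction n with
  | zero => simp
  | succ n ih =>
    rw [show 2 * (n + 1) = 2 * n + 1 + 1 by ring, prod_range_succ, prod_range_succ, ih,
      prod_range_succ _ n]
    have e1 : (mu (2 * n) : ℝ) = 3 * n + 1 := by
      have : mu (2 * n) = 3 * n + 1 := by unfold mu; omega
      rw [this]; push_cast; ring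
    have e2 : (mu (2 * n + 1) : ℝ) = 3 * n + 2 := by
      have : mu (2 * n + 1) = 3 * n + 2 := by unfold mu; omega
      rw [this]; push_cast; ring
    rw [e1, e2]
    ring

theorem mu_even (n : ℕ) : (mu (2 * n) : ℝ) = 3 * n + 1 := by
  have : mu (2 * n) = 3 * n + 1 := by unfold mu; omega
  rw [this]; push_cast; ring

theorem mu_odd (n : ℕ) : (mu (2 * n + 1) : ℝ) = 3 * n + 2 := by
  have : mu (2 * n + 1) = 3 * n + 2 := by unfold mu; omega
  rw [this]; push_cast; ring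

theorem prod_split (f : ℕ → ℝ) (n : ℕ) :
    ∏ k ∈ range (2 * n), f k = (∏ k ∈ range n, f (n - 1 - k)) * ∏ k ∈ range n, f (n + k) := by
  rw [Finset.prod_range_reflect, two_mul, Finset.prod_range_add]

theorem A_even (n : ℕ) : (mu (2 * n) : ℝ) * ∏ i ∈ range (2 * n), ((mu (2 * n) : ℝ) ^ 2 - (mu i : ℝ) ^ 2)
    = (3 * n + 1) * ∏ k ∈ range (2 * n), ((3 * k + 2) * (3 * k + 3) : ℝ) := by
  rw [mu_even, prod_mu (fun x => ((3 * n + 1 : ℝ)) ^ 2 - x ^ 2) n, prod_split, ← Finset.prod_mul_distrib]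
  congr 1
  refine Finset.prod_congr rfl fun k hk => ?_
  have hk := mem_range.1 hk
  have e : ((n - 1 - k : ℕ) : ℝ) = n - 1 - k := by
    have : n - 1 - k + (1 + k) = n := by omega
    have h2 : ((n - 1 - k : ℕ) : ℝ) + (1 + k) = n := by exact_mod_cast this
    linarith
  rw [e]
  push_cast
  ring

theorem A_odd (n : ℕ) : (mu (2 * n + 1) : ℝ) *
      ∏ i ∈ range (2 * n + 1), ((mu (2 * n + 1) : ℝ) ^ 2 - (mu i : ℝ) ^ 2)
    = (3 * n + 2) * (6 * n + 3) * ∏ k ∈ range (2 * n), ((3 * k + 3) * (3 * k + 4) : ℝ) := by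
  rw [prod_range_succ, mu_odd, mu_even, prod_mu (fun x => ((3 * n + 2 : ℝ)) ^ 2 - x ^ 2) n,
    prod_split, ← Finset.prod_mul_distrib]
  have h : ∏ k ∈ range n, (((3 * n + 2 : ℝ) ^ 2 - (3 * k + 1) ^ 2) * ((3 * n + 2) ^ 2 - (3 * k + 2) ^ 2))
      = ∏ k ∈ range n, (((3 * ((n - 1 - k : ℕ) : ℝ) + 3) * (3 * ((n - 1 - k : ℕ) : ℝ) + 4))
        * ((3 * ((n + k : ℕ) : ℝ) + 3) * (3 * ((n + k : ℕ) : ℝ) + 4))) := by
    refine Finset.prod_congr rfl fun k hk => ?_
    have hk := mem_range.1 hk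
    have e : ((n - 1 - k : ℕ) : ℝ) = n - 1 - k := by
      have : n - 1 - k + (1 + k) = n := by omega
      have h2 : ((n - 1 - k : ℕ) : ℝ) + (1 + k) = n := by exact_mod_cast this
      linarith
    rw [e]
    push_cast
    ring
  rw [h]
  ring

theorem B_eq (m : ℕ) : ((m + 1 : ℕ) : ℝ) * ∏ i ∈ range m, (((m + 1 : ℕ) : ℝ) ^ 2 - ((i + 1 : ℕ) : ℝ) ^ 2)
    = (2 * m + 1).factorial := by
  have h1 : ∏ i ∈ range m, (((m + 1 : ℕ) : ℝ) ^ 2 - ((i + 1 : ℕ) : ℝ) ^ 2)
      = (∏ i ∈ range m, ((m - i : ℕ) : ℝ)) * ∏ i ∈ range m, ((m + 1 + 1 + i : ℕ) : ℝ) := by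
    rw [← Finset.prod_mul_distrib]
    refine Finset.prod_congr rfl fun i hi => ?_
    have hi := mem_range.1 hi
    rw [Nat.cast_sub hi.le]
    push_cast
    ring
  have h2 : ∏ i ∈ range m, ((m - i : ℕ) : ℝ) = m.factorial := by
    rw [← Finset.prod_range_reflect, ← Finset.prod_range_add_one_eq_factorial, Nat.cast_prod]
    refine Finset.prod_congr rfl fun i hi => ?_
    have hi := mem_range.1 hi
    congr 1
    omega
  have h3 : (m.factorial : ℝ) * ((m + 1 : ℕ) : ℝ) = ((m + 1).factorial : ℝ) := by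
    rw [Nat.factorial_succ]; push_cast; ring
  have h4 : ((m + 1).factorial : ℝ) * ∏ i ∈ range m, ((m + 1 + 1 + i : ℕ) : ℝ)
      = (2 * m + 1).factorial := by
    have := Nat.factorial_mul_ascFactorial (m + 1) m
    rw [show 2 * m + 1 = m + 1 + m by ring, ← this, Nat.ascFactorial_eq_prod_range]
    push_cast
    rfl
  rw [h1, h2, ← mul_assoc, mul_comm ((m + 1 : ℕ) : ℝ), h3, h4]

theorem X_succ (m : ℕ) : X (m + 1) = X m *
    ((mu m * ∏ i ∈ range m, ((mu m : ℝ) ^ 2 - (mu i : ℝ) ^ 2)) / (2 * m + 1).factorial) := by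
  unfold X
  rw [g_succ, g_succ, B_eq]
  have h1 : g (fun j => j + 1) m ≠ 0 :=
    g_ne_zero (strictMono_nat_of_lt_succ fun n => by omega) (by norm_num) m
  have h2 : ((2 * m + 1).factorial : ℝ) ≠ 0 := by exact_mod_cast (Nat.factorial_pos _).ne'
  have h3 : (-4 : ℝ) ^ m ≠ 0 := pow_ne_zero _ (by norm_num)
  field_simp

theorem X_ne_zero (m : ℕ) : X m ≠ 0 :=
  div_ne_zero (g_ne_zero mu_strictMono (by unfold mu; norm_num) m)
    (g_ne_zero (strictMono_nat_of_lt_succ fun n => by omega) (by norm_num) m)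

/-- the closed form of the finite-size probability -/
theorem X_closed (n : ℕ) : X (2 * n) * X (2 * n + 2) / X (2 * n + 1) ^ 2 =
    3 * (3 * n + 2) / (2 * (3 * n + 1) * (4 * n + 3)) *
      (∏ j ∈ range (2 * n + 1), (3 * j + 1 : ℝ)) / ∏ j ∈ range (2 * n), (3 * j + 2 : ℝ) := by
  have h1 : X (2 * n + 1) = X (2 * n) *
      (((3 * n + 1) * ∏ k ∈ range (2 * n), ((3 * k + 2) * (3 * k + 3) : ℝ))
        / (2 * (2 * n) + 1).factorial) := by
    rw [X_succ, A_even]
  have h2 : X (2 * n + 2) = X (2 * n + 1) *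
      (((3 * n + 2) * (6 * n + 3) * ∏ k ∈ range (2 * n), ((3 * k + 3) * (3 * k + 4) : ℝ))
        / (2 * (2 * n + 1) + 1).factorial) := by
    rw [show 2 * n + 2 = 2 * n + 1 + 1 by ring, X_succ (2 * n + 1), A_odd]
  have hf : ((2 * (2 * n + 1) + 1).factorial : ℝ)
      = (4 * n + 3) * (4 * n + 2) * (2 * (2 * n) + 1).factorial := by
    rw [show 2 * (2 * n + 1) + 1 = 2 * (2 * n) + 1 + 1 + 1 by ring, Nat.factorial_succ,
      Nat.factorial_succ]
    push_cast
    ring
  have hf0 : ((2 * (2 * n) + 1).factorial : ℝ) ≠ 0 := by exact_mod_cast (Nat.factorial_pos _).ne'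
  have hX0 := X_ne_zero (2 * n)
  have hp1 : ∏ k ∈ range (2 * n), ((3 * k + 2) * (3 * k + 3) : ℝ)
      = (∏ k ∈ range (2 * n), (3 * k + 2 : ℝ)) * ∏ k ∈ range (2 * n), (3 * k + 3 : ℝ) :=
    Finset.prod_mul_distrib
  have hp2 : ∏ k ∈ range (2 * n), ((3 * k + 3) * (3 * k + 4) : ℝ)
      = (∏ k ∈ range (2 * n), (3 * k + 3 : ℝ)) * ∏ j ∈ range (2 * n + 1), (3 * j + 1 : ℝ) := by
    rw [Finset.prod_mul_distrib, Finset.prod_range_succ' (fun j : ℕ => (3 * j + 1 : ℝ)) (2 * n)]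
    congr 1
    rw [Nat.cast_zero, mul_zero, zero_add, mul_one]
    refine Finset.prod_congr rfl fun k _ => ?_
    push_cast
    ring
  have hA : ∏ k ∈ range (2 * n), (3 * k + 2 : ℝ) ≠ 0 :=
    Finset.prod_ne_zero_iff.2 fun k _ => by positivity
  have hB : ∏ k ∈ range (2 * n), (3 * k + 3 : ℝ) ≠ 0 :=
    Finset.prod_ne_zero_iff.2 fun k _ => by positivity
  have hn1 : (3 * n + 1 : ℝ) ≠ 0 := by positivity
  have hn2 : (4 * n + 3 : ℝ) ≠ 0 := by positivity
  have hn3 : (4 * n + 2 : ℝ) ≠ 0 := by positivity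
  rw [h2, h1, hf, hp1, hp2]
  field_simp
  ring

end SpV
end IP
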