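import Mathlib

/-! Type C Vandermonde determinants and symplectic dimension formula. -/

namespace H60TypeC

open Polynomial Finset Matrix Filter Topology

theorem S_natDegree_monic {R : Type*} [CommRing R] [Nontrivial R] (n : ℕ) :
    (Chebyshev.S R n).natDegree = n ∧ (Chebyshev.S R n).Monic := by
  induction n using Nat.strong_induction_on with
  | _ n ih =>
    match n with
    | 0 => simp
    | 1 => simp
    | (m + 2) =>
      obtain ⟨h1, h1m⟩ := ih (m + 1) (by omega)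
      obtain ⟨h0, h0m⟩ := ih m (by omega)
      have e : Chebyshev.S R ((m + 2 : ℕ) : ℤ)
          = X * Chebyshev.S R ((m + 1 : ℕ) : ℤ) - Chebyshev.S R ((m : ℕ) : ℤ) := by
        have := Chebyshev.S_add_two R (m : ℤ)
        push_cast
        exact this
      have hX : (X * Chebyshev.S R ((m + 1 : ℕ) : ℤ)).Monic := monic_X.mul h1m
      have hXd : (X * Chebyshev.S R ((m + 1 : ℕ) : ℤ)).natDegree = m + 2 := by
        rw [monic_X.natDegree_mul h1m, h1, natDegree_X]; ring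
      have hlt : (Chebyshev.S R ((m : ℕ) : ℤ)).degree
          < (X * Chebyshev.S R ((m + 1 : ℕ) : ℤ)).degree := by
        rw [degree_eq_natDegree hX.ne_zero, degree_eq_natDegree h0m.ne_zero, hXd, h0]
        exact_mod_cast (by omega : m < m + 2)
      rw [e]
      refine ⟨?_, ?_⟩
      · rw [natDegree_sub_eq_left_of_natDegree_lt, hXd]
        rw [hXd, h0]; omega
      · exact hX.sub_of_left hlt

theorem S_eval {K : Type*} [Field K] (y : K) (hy : y ≠ 0) (n : ℕ) :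
    (y - y⁻¹) * (Chebyshev.S K n).eval (y + y⁻¹) = y ^ (n + 1) - y⁻¹ ^ (n + 1) := by
  induction n using Nat.strong_induction_on with
  | _ n ih =>
    match n with
    | 0 => simp
    | 1 =>
      simp only [Nat.cast_one, Chebyshev.S_one, eval_X]
      ring
    | (m + 2) =>
      have h1 := ih (m + 1) (by omega)
      have h0 := ih m (by omega)
      have e : Chebyshev.S K ((m + 2 : ℕ) : ℤ)
          = X * Chebyshev.S K ((m + 1 : ℕ) : ℤ) - Chebyshev.S K ((m : ℕ) : ℤ) := by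
        have := Chebyshev.S_add_two K (m : ℤ)
        push_cast
        exact this
      rw [e, eval_sub, eval_mul, eval_X, mul_sub, mul_left_comm, h1, h0]
      have hyy : y * y⁻¹ = 1 := mul_inv_cancel₀ hy
      have e1 : y ^ (m + 1 + 1) * y⁻¹ = y ^ (m + 1) := by
        rw [pow_succ, mul_assoc, hyy, mul_one]
      have e2 : y * y⁻¹ ^ (m + 1 + 1) = y⁻¹ ^ (m + 1) := by
        rw [pow_succ, mul_comm (y⁻¹ ^ (m + 1)), ← mul_assoc, hyy, one_mul]
      calc (y + y⁻¹) * (y ^ (m + 1 + 1) - y⁻¹ ^ (m + 1 + 1)) - (y ^ (m + 1) - y⁻¹ ^ (m + 1))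
          = y * y ^ (m + 1 + 1) + y ^ (m + 1 + 1) * y⁻¹ - y * y⁻¹ ^ (m + 1 + 1)
              - y⁻¹ * y⁻¹ ^ (m + 1 + 1) - (y ^ (m + 1) - y⁻¹ ^ (m + 1)) := by ring
        _ = y ^ (m + 2 + 1) - y⁻¹ ^ (m + 2 + 1) := by rw [e1, e2]; ring

/-- The type C Vandermonde determinant. -/
theorem det_typeC {K : Type*} [Field K] {n : ℕ} (y : Fin n → K) (hy : ∀ i, y i ≠ 0) :
    (Matrix.of fun i j : Fin n => y i ^ ((j : ℕ) + 1) - (y i)⁻¹ ^ ((j : ℕ) + 1)).det
      = (∏ i, (y i - (y i)⁻¹)) *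
        ∏ i : Fin n, ∏ j ∈ Finset.Ioi i, ((y j + (y j)⁻¹) - (y i + (y i)⁻¹)) := by
  have h1 : (Matrix.of fun i j : Fin n => y i ^ ((j : ℕ) + 1) - (y i)⁻¹ ^ ((j : ℕ) + 1))
      = Matrix.of fun i j : Fin n => (y i - (y i)⁻¹) *
        (Matrix.of fun i j : Fin n => (Chebyshev.S K ((j : ℕ) : ℤ)).eval (y i + (y i)⁻¹)) i j := by
    ext i j
    simp only [Matrix.of_apply]
    exact (S_eval (y i) (hy i) j).symm
  rw [h1, Matrix.det_mul_column]
  congr 1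
  rw [← Matrix.det_eval_matrixOfPolynomials_eq_det_vandermonde (fun i => y i + (y i)⁻¹)
    (fun j : Fin n => Chebyshev.S K ((j : ℕ) : ℤ)) (fun j => (S_natDegree_monic j).1)
    (fun j => (S_natDegree_monic j).2), Matrix.det_vandermonde]

/-- `(t ^ a - t⁻¹ ^ a) / (t - t⁻¹) → a` as `t → 1`. -/
theorem tendsto_ratio (a : ℕ) :
    Tendsto (fun t : ℝ => (t ^ a - t⁻¹ ^ a) / (t - t⁻¹)) (𝓝[>] 1) (𝓝 a) := by
  rcases a with _ | a
  · simp
  · have h : Tendsto (fun t : ℝ => (Chebyshev.S ℝ ((a : ℕ) : ℤ)).eval (t + t⁻¹)) (𝓝[>] 1)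
        (𝓝 ((Chebyshev.S ℝ ((a : ℕ) : ℤ)).eval (1 + 1⁻¹))) := by
      have hc : ContinuousAt (fun t : ℝ => t + t⁻¹) 1 :=
        continuousAt_id.add (continuousAt_inv₀ one_ne_zero)
      exact (((Chebyshev.S ℝ ((a : ℕ) : ℤ)).continuous.continuousAt.comp hc).tendsto).mono_left
        nhdsWithin_le_nhds
    have e : (Chebyshev.S ℝ ((a : ℕ) : ℤ)).eval (1 + 1⁻¹) = ((a + 1 : ℕ) : ℝ) := by
      have := Chebyshev.S_eval_two ℝ (a : ℤ)
      rw [inv_one, one_add_one_eq_two, this]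
      push_cast
      ring
    rw [e] at h
    refine h.congr' ?_
    filter_upwards [self_mem_nhdsWithin] with t ht
    have ht1 : (1 : ℝ) < t := ht
    have ht0 : t ≠ 0 := by positivity
    have hne : t - t⁻¹ ≠ 0 := by
      have : t⁻¹ < 1 := inv_lt_one_of_one_lt₀ ht1
      linarith
    rw [← S_eval t ht0 a, mul_div_cancel_left₀ _ hne]

/-- `(t ^ a + t⁻¹ ^ a - t ^ b - t⁻¹ ^ b) / (t - t⁻¹) ^ 2 → (a ^ 2 - b ^ 2) / 4` as `t → 1`. -/
theorem tendsto_ratio2 (a b : ℕ) :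
    Tendsto (fun t : ℝ => ((t ^ a + t⁻¹ ^ a) - (t ^ b + t⁻¹ ^ b)) / (t - t⁻¹) ^ 2) (𝓝[>] 1)
      (𝓝 (((a : ℝ) ^ 2 - (b : ℝ) ^ 2) / 4)) := by
  -- use s = √t
  have hs : Tendsto (fun t : ℝ => Real.sqrt t) (𝓝[>] 1) (𝓝[>] 1) := by
    refine tendsto_nhdsWithin_iff.2 ⟨?_, ?_⟩
    · have := Real.continuous_sqrt.tendsto (1 : ℝ)
      rw [Real.sqrt_one] at this
      exact this.mono_left nhdsWithin_le_nhds
    · filter_upwards [self_mem_nhdsWithin] with t ht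
      have ht1 : (1 : ℝ) < t := ht
      exact Real.lt_sqrt_of_sq_lt (by simpa using ht1)
  have ha := (tendsto_ratio a).comp hs
  have hb := (tendsto_ratio b).comp hs
  have h2 : Tendsto (fun t : ℝ => (Real.sqrt t + (Real.sqrt t)⁻¹) ^ 2) (𝓝[>] 1) (𝓝 4) := by
    have hc : Tendsto (fun s : ℝ => (s + s⁻¹) ^ 2) (𝓝[>] 1) (𝓝 4) := by
      have : ContinuousAt (fun s : ℝ => (s + s⁻¹) ^ 2) 1 :=
        (continuousAt_id.add (continuousAt_inv₀ one_ne_zero)).pow 2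
      have := this.tendsto
      norm_num at this
      exact this.mono_left nhdsWithin_le_nhds
    exact hc.comp hs
  have h := ((ha.pow 2).sub (hb.pow 2)).div h2 (by norm_num)
  refine h.congr' ?_
  filter_upwards [self_mem_nhdsWithin] with t ht
  have ht1 : (1 : ℝ) < t := ht
  have ht0 : (0 : ℝ) < t := by positivity
  set s := Real.sqrt t with hsdef
  have hs1 : 1 < s := Real.lt_sqrt_of_sq_lt (by simpa using ht1)
  have hst : t = s ^ 2 := (Real.sq_sqrt ht0.le).symm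
  have hs0 : s ≠ 0 := by positivity
  have hne : s - s⁻¹ ≠ 0 := by
    have : s⁻¹ < 1 := inv_lt_one_of_one_lt₀ hs1
    linarith
  have hne2 : s + s⁻¹ ≠ 0 := by positivity
  have hfac : t - t⁻¹ = (s - s⁻¹) * (s + s⁻¹) := by
    rw [hst]; field_simp; ring
  have hk : ∀ k : ℕ, t ^ k + t⁻¹ ^ k = (s ^ k - s⁻¹ ^ k) ^ 2 + 2 := by
    intro k
    have : s ^ k * s⁻¹ ^ k = 1 := by rw [← mul_pow, mul_inv_cancel₀ hs0, one_pow]
    have e2 : (s ^ 2)⁻¹ = s⁻¹ ^ 2 := (inv_pow s 2).symm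
    rw [hst, e2, ← pow_mul, ← pow_mul, mul_comm 2 k, pow_mul, pow_mul]
    linear_combination 2 * this
  show (((s ^ a - s⁻¹ ^ a) / (s - s⁻¹)) ^ 2 - ((s ^ b - s⁻¹ ^ b) / (s - s⁻¹)) ^ 2) / (s + s⁻¹) ^ 2
    = ((t ^ a + t⁻¹ ^ a) - (t ^ b + t⁻¹ ^ b)) / (t - t⁻¹) ^ 2
  rw [hk a, hk b, hfac, div_pow, div_pow, ← sub_div, div_div, mul_pow]
  congr 1
  ring

/-- The symplectic dimension formula (as a limit of determinants). -/
theorem tendsto_det {n : ℕ} (l : Fin n → ℕ) :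
    Tendsto (fun t : ℝ => (Matrix.of fun i j : Fin n =>
        (t ^ l i) ^ ((j : ℕ) + 1) - (t⁻¹ ^ l i) ^ ((j : ℕ) + 1)).det / (t - t⁻¹) ^ (n ^ 2)) (𝓝[>] 1)
      (𝓝 ((∏ i, (l i : ℝ)) * ∏ i : Fin n, ∏ j ∈ Finset.Ioi i,
        (((l j : ℝ) ^ 2 - (l i : ℝ) ^ 2) / 4))) := by
  have h := (tendsto_finsetProd (Finset.univ : Finset (Fin n))
    (fun i _ => tendsto_ratio (l i))).mul
    (tendsto_finsetProd (Finset.univ : Finset (Fin n))
      (fun i _ => tendsto_finsetProd (Finset.Ioi i) (fun j _ => tendsto_ratio2 (l j) (l i))))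
  refine h.congr' ?_
  filter_upwards [self_mem_nhdsWithin] with t ht
  have ht1 : (1 : ℝ) < t := ht
  have ht0 : (0 : ℝ) < t := by positivity
  have hne : t - t⁻¹ ≠ 0 := by
    have : t⁻¹ < 1 := inv_lt_one_of_one_lt₀ ht1
    linarith
  have hy : ∀ i : Fin n, t ^ l i ≠ 0 := fun i => by positivity
  have hd := det_typeC (fun i : Fin n => t ^ l i) hy
  have e : (Matrix.of fun i j : Fin n =>
        (t ^ l i) ^ ((j : ℕ) + 1) - (t⁻¹ ^ l i) ^ ((j : ℕ) + 1))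
      = (Matrix.of fun i j : Fin n =>
        (t ^ l i) ^ ((j : ℕ) + 1) - (t ^ l i)⁻¹ ^ ((j : ℕ) + 1)) := by
    ext i j
    simp only [Matrix.of_apply, inv_pow]
  rw [e, hd]
  have hcard : ∏ i : Fin n, ∏ j ∈ Finset.Ioi i, (t - t⁻¹) ^ 2 = (t - t⁻¹) ^ (n ^ 2 - n) := by
    have : ∀ i : Fin n, ∏ _j ∈ Finset.Ioi i, (t - t⁻¹) ^ 2 = (t - t⁻¹) ^ (2 * (n - 1 - (i : ℕ))) := by
      intro i
      rw [Finset.prod_const, Fin.card_Ioi, ← pow_mul]
    rw [Finset.prod_congr rfl (fun i _ => this i), Finset.prod_pow_eq_pow_sum]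
    congr 1
    rw [Fin.sum_univ_eq_sum_range (fun i => 2 * (n - 1 - i)) n, ← Finset.mul_sum,
      Finset.sum_range_reflect (fun i => i) n, mul_comm, Finset.sum_range_id_mul_two]
    rw [pow_two, Nat.mul_sub_one]
  have hprod1 : ∏ i : Fin n, ((t ^ l i - t⁻¹ ^ l i) / (t - t⁻¹))
      = (∏ i : Fin n, (t ^ l i - (t ^ l i)⁻¹)) / (t - t⁻¹) ^ n := by
    rw [Finset.prod_div_distrib, Finset.prod_const, Finset.card_univ, Fintype.card_fin]
    simp only [inv_pow]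
  have hprod2 : ∏ i : Fin n, ∏ j ∈ Finset.Ioi i,
      (((t ^ l j + t⁻¹ ^ l j) - (t ^ l i + t⁻¹ ^ l i)) / (t - t⁻¹) ^ 2)
      = (∏ i : Fin n, ∏ j ∈ Finset.Ioi i,
        ((t ^ l j + (t ^ l j)⁻¹) - (t ^ l i + (t ^ l i)⁻¹))) / (t - t⁻¹) ^ (n ^ 2 - n) := by
    rw [← hcard, ← Finset.prod_div_distrib]
    refine Finset.prod_congr rfl fun i _ => ?_
    rw [← Finset.prod_div_distrib]
    simp only [inv_pow]
  rw [hprod1, hprod2, div_mul_div_comm, ← pow_add]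
  congr 2
  have : n ≤ n ^ 2 := by nlinarith [Nat.zero_le n, sq_nonneg (n : ℤ), Nat.le_self_pow (two_ne_zero) n]
  omega

end H60TypeC
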